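import Pool.Agent.helper42.CQ.SpecC

set_option autoImplicit false

namespace Pool.Agent.helper42.CQ

open Finset Pool.Agent.helper24.CG

theorem IN1 (hINI : INI_stmt) : IN1_stmt := by
  intro N q p hN hq
  have hq0 : (0 : ℝ) < (q : ℝ) + 1 := by positivity
  have hnn : ∀ (s : ℕ) (S : ES N), 0 ≤ Psi0 N s p S := fun s S => (hINI N s p hN).1 S
  refine ⟨?_, ?_, ?_⟩
  · intro S
    unfold Psi1
    exact div_nonneg (Finset.sum_nonneg fun s _ => hnn s S) hq0.le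
  · unfold Psi1
    rw [← Finset.sum_div, Finset.sum_comm, div_le_iff₀ hq0]
    calc ∑ s ∈ Finset.Icc 1 q, ∑ S : ES N, Psi0 N s p S ≤ ∑ s ∈ Finset.Icc 1 q, (2 : ℝ) :=
          Finset.sum_le_sum fun s _ => (hINI N s p hN).2.1
      _ = (q : ℝ) * 2 := by
          rw [Finset.sum_const, Nat.card_Icc, nsmul_eq_mul, Nat.add_sub_cancel]
      _ ≤ 2 * ((q : ℝ) + 1) := by linarith
  · intro K hK
    unfold Psi1
    rw [le_div_iff₀ hq0, mul_inv, mul_comm, ← mul_assoc, mul_inv_cancel₀ hq0.ne', one_mul]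
    calc ((N : ℝ) ^ q)⁻¹ ≤ Psi0 N q p (ed K) := (hINI N q p hN).2.2 K hK
      _ ≤ ∑ s ∈ Finset.Icc 1 q, Psi0 N s p (ed K) :=
          Finset.single_le_sum (f := fun s => Psi0 N s p (ed K)) (fun s _ => hnn s (ed K))
            (Finset.mem_Icc.2 ⟨hq, le_refl q⟩)

end Pool.Agent.helper42.CQ
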